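import Mathlib

/-!
Lanes of a natural number: `lane F k x` is the `k`-th block of `F` binary digits of `x`.
Pure arithmetic lemmas for word-parallel kernel computations.
-/

set_option autoImplicit false

namespace Pool.Agent.H57.Lane

/-- The `k`-th block of `F` binary digits of `x`. -/
def lane (F k x : ℕ) : ℕ := x / 2 ^ (F * k) % 2 ^ F

/-- The number with the digit `1` at the bottom of each of the first `L` lanes. -/
def rep (F L : ℕ) : ℕ := ∑ k ∈ Finset.range L, 2 ^ (F * k)

theorem lane_lt (F k x : ℕ) : lane F k x < 2 ^ F := Nat.mod_lt _ (by positivity)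

theorem testBit_lane (F k x j : ℕ) :
    (lane F k x).testBit j = (decide (j < F) && x.testBit (F * k + j)) := by
  unfold lane
  rw [Nat.testBit_mod_two_pow, Nat.testBit_div_two_pow, Nat.add_comm j (F * k)]

theorem lane_land (F k x y : ℕ) : lane F k (x &&& y) = lane F k x &&& lane F k y := by
  unfold lane
  rw [Nat.and_div_two_pow, Nat.and_mod_two_pow]

theorem lane_lor (F k x y : ℕ) : lane F k (x ||| y) = lane F k x ||| lane F k y := by
  unfold lane
  rw [Nat.or_div_two_pow, Nat.or_mod_two_pow]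

theorem lane_xor (F k x y : ℕ) : lane F k (x ^^^ y) = lane F k x ^^^ lane F k y := by
  unfold lane
  rw [Nat.xor_div_two_pow, Nat.xor_mod_two_pow]

theorem lane_zero (F x : ℕ) : lane F 0 x = x % 2 ^ F := by
  simp [lane]

theorem lane_succ (F k x : ℕ) : lane F (k + 1) x = lane F k (x / 2 ^ F) := by
  unfold lane
  rw [Nat.mul_succ, Nat.add_comm, Nat.pow_add, Nat.div_div_eq_div_mul]

theorem lane_of_zero (F k : ℕ) : lane F k 0 = 0 := by simp [lane]

theorem add_div_mod {P x y : ℕ} (hP : 0 < P) (h : x % P + y % P < P) :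
    (x + y) / P = x / P + y / P ∧ (x + y) % P = x % P + y % P := by
  constructor
  · rw [Nat.add_div hP, if_neg (by omega)]
    rfl
  · rw [Nat.add_mod, Nat.mod_eq_of_lt h]

theorem lane_add {F x y : ℕ} (h : ∀ k, lane F k x + lane F k y < 2 ^ F) :
    ∀ k, lane F k (x + y) = lane F k x + lane F k y := by
  intro k
  induction k generalizing x y with
  | zero =>
    have h0 := h 0
    rw [lane_zero, lane_zero] at h0
    rw [lane_zero, lane_zero, lane_zero]
    exact (add_div_mod (by positivity) h0).2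
  | succ k ih =>
    have h0 := h 0
    rw [lane_zero, lane_zero] at h0
    rw [lane_succ, lane_succ, lane_succ, (add_div_mod (by positivity) h0).1]
    exact ih (fun k => by rw [← lane_succ, ← lane_succ]; exact h (k + 1))

theorem le_of_lane_le {F x y : ℕ} (hF : 0 < F) (h : ∀ k, lane F k y ≤ lane F k x) : y ≤ x := by
  induction y using Nat.strong_induction_on generalizing x with
  | _ y ih =>
    rcases Nat.eq_zero_or_pos y with rfl | hy
    · exact Nat.zero_le _
    have hP : 1 < 2 ^ F := Nat.one_lt_two_pow (by omega)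
    have h1 : y / 2 ^ F < y := Nat.div_lt_self hy hP
    have h2 : y / 2 ^ F ≤ x / 2 ^ F := ih _ h1 (fun k => by
      rw [← lane_succ, ← lane_succ]; exact h (k + 1))
    have h0 := h 0
    rw [lane_zero, lane_zero] at h0
    have e1 := Nat.div_add_mod x (2 ^ F)
    have e2 := Nat.div_add_mod y (2 ^ F)
    have e3 : 2 ^ F * (y / 2 ^ F) ≤ 2 ^ F * (x / 2 ^ F) := Nat.mul_le_mul_left _ h2
    omega

theorem sub_div_mod {P x y : ℕ} (hP : 0 < P) (h1 : y / P ≤ x / P) (h2 : y % P ≤ x % P) :
    (x - y) / P = x / P - y / P ∧ (x - y) % P = x % P - y % P := by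
  obtain ⟨a, ha⟩ := Nat.exists_eq_add_of_le h1
  have e1 := Nat.div_add_mod x P
  have e2 := Nat.div_add_mod y P
  have hx : x = y + (P * a + (x % P - y % P)) := by
    have : P * (x / P) = P * (y / P) + P * a := by rw [ha, Nat.mul_add]
    omega
  have hlt : x % P - y % P < P := lt_of_le_of_lt (Nat.sub_le _ _) (Nat.mod_lt _ hP)
  have hz : x - y = P * a + (x % P - y % P) := by omega
  rw [hz]
  constructor
  · rw [Nat.mul_add_div hP, Nat.div_eq_of_lt hlt]
    omega
  · rw [Nat.mul_add_mod, Nat.mod_eq_of_lt hlt]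

theorem lane_sub {F x y : ℕ} (hF : 0 < F) (h : ∀ k, lane F k y ≤ lane F k x) :
    ∀ k, lane F k (x - y) = lane F k x - lane F k y := by
  intro k
  induction k generalizing x y with
  | zero =>
    have h0 := h 0
    rw [lane_zero, lane_zero] at h0
    rw [lane_zero, lane_zero, lane_zero]
    refine (sub_div_mod (by positivity) ?_ h0).2
    exact le_of_lane_le hF (fun k => by rw [← lane_succ, ← lane_succ]; exact h (k + 1))
  | succ k ih =>
    have h0 := h 0
    rw [lane_zero, lane_zero] at h0
    have h1 : ∀ k, lane F k (y / 2 ^ F) ≤ lane F k (x / 2 ^ F) := fun k => by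
      rw [← lane_succ, ← lane_succ]; exact h (k + 1)
    rw [lane_succ, lane_succ, lane_succ,
      (sub_div_mod (by positivity) (le_of_lane_le hF h1) h0).1]
    exact ih h1

theorem mul_div_mod {P x c : ℕ} (hP : 0 < P) (h : x % P * c < P) :
    (x * c) / P = x / P * c ∧ (x * c) % P = x % P * c := by
  have e1 := Nat.div_add_mod x P
  have hx : x * c = P * (x / P * c) + x % P * c := by
    calc x * c = (P * (x / P) + x % P) * c := by rw [e1]
      _ = P * (x / P * c) + x % P * c := by ring
  constructor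
  · conv_lhs => rw [hx]
    rw [Nat.mul_add_div hP, Nat.div_eq_of_lt h, Nat.add_zero]
  · conv_lhs => rw [hx]
    rw [Nat.mul_add_mod, Nat.mod_eq_of_lt h]

theorem lane_mul {F x c : ℕ} (h : ∀ k, lane F k x * c < 2 ^ F) :
    ∀ k, lane F k (x * c) = lane F k x * c := by
  intro k
  induction k generalizing x with
  | zero =>
    have h0 := h 0
    rw [lane_zero] at h0
    rw [lane_zero, lane_zero]
    exact (mul_div_mod (by positivity) h0).2
  | succ k ih =>
    have h0 := h 0
    rw [lane_zero] at h0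
    rw [lane_succ, lane_succ, (mul_div_mod (by positivity) h0).1]
    exact ih (fun k => by rw [← lane_succ]; exact h (k + 1))

theorem rep_zero (F : ℕ) : rep F 0 = 0 := by simp [rep]

theorem rep_succ (F L : ℕ) : rep F (L + 1) = 2 ^ F * rep F L + 1 := by
  unfold rep
  rw [Finset.sum_range_succ', Finset.mul_sum]
  simp only [Nat.mul_zero, Nat.pow_zero]
  congr 1
  refine Finset.sum_congr rfl (fun k _ => ?_)
  rw [← Nat.pow_add]
  congr 1
  ring

theorem lane_rep {F : ℕ} (hF : 0 < F) (L k : ℕ) : lane F k (rep F L) = if k < L then 1 else 0 := by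
  have hP : 1 < 2 ^ F := Nat.one_lt_two_pow (by omega)
  induction L generalizing k with
  | zero => simp [rep_zero, lane_of_zero]
  | succ L ih =>
    rw [rep_succ]
    cases k with
    | zero =>
      rw [lane_zero, Nat.mul_add_mod, Nat.mod_eq_of_lt hP, if_pos (Nat.succ_pos _)]
    | succ k =>
      rw [lane_succ, Nat.mul_add_div (by positivity), Nat.div_eq_of_lt hP, Nat.add_zero, ih]
      simp

theorem lane_mul_rep {F x : ℕ} (hF : 0 < F) (hx : x < 2 ^ F) (L k : ℕ) :
    lane F k (x * rep F L) = if k < L then x else 0 := by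
  rw [Nat.mul_comm, lane_mul]
  · rw [lane_rep hF]
    split_ifs <;> simp
  · intro k
    rw [lane_rep hF]
    split_ifs
    · simpa using hx
    · simp

theorem lane_const_mul_rep {F c : ℕ} (hF : 0 < F) (hc : c < 2 ^ F) (L k : ℕ) :
    lane F k (c * rep F L) = if k < L then c else 0 := lane_mul_rep hF hc L k

theorem lane_rep_mul {F x : ℕ} (hF : 0 < F) (hx : x < 2 ^ F) (L k : ℕ) :
    lane F k (rep F L * x) = if k < L then x else 0 := by
  rw [Nat.mul_comm]
  exact lane_mul_rep hF hx L k

/-- Two numbers with the same lanes are equal. -/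
theorem eq_of_lane_eq {F x y : ℕ} (hF : 0 < F) (h : ∀ k, lane F k x = lane F k y) : x = y :=
  le_antisymm (le_of_lane_le hF fun k => (h k).le) (le_of_lane_le hF fun k => (h k).ge)

/-! ### Sums of distinct powers of two -/

theorem sum_two_pow_lt (S : Finset ℕ) (m : ℕ) (h : ∀ i ∈ S, i < m) : ∑ i ∈ S, 2 ^ i < 2 ^ m := by
  have h1 : ∑ i ∈ S, 2 ^ i ≤ ∑ i ∈ Finset.range m, 2 ^ i :=
    Finset.sum_le_sum_of_subset (fun i hi => Finset.mem_range.2 (h i hi))
  have h2 : ∑ i ∈ Finset.range m, 2 ^ i < 2 ^ m := by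
    have := Nat.geomSum_lt (m := 2) (n := m) (s := Finset.range m) le_rfl
      (fun k hk => Finset.mem_range.1 hk)
    exact this
  exact lt_of_le_of_lt h1 h2

theorem testBit_sum_two_pow (S : Finset ℕ) (p : ℕ) :
    (∑ i ∈ S, 2 ^ i).testBit p = decide (p ∈ S) := by
  induction S using Finset.induction_on_max with
  | empty => simp
  | insert a s ha ih =>
    have hnot : a ∉ s := fun h => lt_irrefl _ (ha a h)
    have hlt : ∑ i ∈ s, 2 ^ i < 2 ^ a := sum_two_pow_lt s a ha
    rw [Finset.sum_insert hnot]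
    have hor : 2 ^ a + ∑ i ∈ s, 2 ^ i = 2 ^ a ||| ∑ i ∈ s, 2 ^ i := by
      have := Nat.two_pow_add_eq_or_of_lt hlt 1
      simpa using this
    rw [hor, Nat.testBit_lor, ih, Nat.testBit_two_pow]
    by_cases hp : a = p
    · subst hp; simp
    · have hp' : p ≠ a := fun h => hp h.symm
      simp [hp, hp']

theorem eq_sum_two_pow (x : ℕ) :
    x = ∑ i ∈ (Finset.range x).filter (fun i => x.testBit i = true), 2 ^ i := by
  apply Nat.eq_of_testBit_eq
  intro p
  rw [testBit_sum_two_pow]
  by_cases hp : x.testBit p = true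
  · have : p < x := lt_of_lt_of_le Nat.lt_two_pow_self (Nat.ge_two_pow_of_testBit hp)
    simp [hp, this]
  · simp [hp]

theorem testBit_mul_of_inj {x y : ℕ}
    (h : ∀ a b a' b', x.testBit a = true → y.testBit b = true → x.testBit a' = true →
      y.testBit b' = true → a + b = a' + b' → a = a' ∧ b = b') (p : ℕ) :
    (x * y).testBit p = true ↔
      ∃ a b, a + b = p ∧ x.testBit a = true ∧ y.testBit b = true := by
  set A := (Finset.range x).filter (fun i => x.testBit i = true) with hA
  set B := (Finset.range y).filter (fun i => y.testBit i = true) with hB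
  have memA : ∀ a, a ∈ A ↔ x.testBit a = true := by
    intro a
    simp only [hA, Finset.mem_filter, Finset.mem_range, and_iff_right_iff_imp]
    intro ha
    exact lt_of_lt_of_le Nat.lt_two_pow_self (Nat.ge_two_pow_of_testBit ha)
  have memB : ∀ a, a ∈ B ↔ y.testBit a = true := by
    intro a
    simp only [hB, Finset.mem_filter, Finset.mem_range, and_iff_right_iff_imp]
    intro ha
    exact lt_of_lt_of_le Nat.lt_two_pow_self (Nat.ge_two_pow_of_testBit ha)
  have hx : x = ∑ i ∈ A, 2 ^ i := eq_sum_two_pow x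
  have hy : y = ∑ i ∈ B, 2 ^ i := eq_sum_two_pow y
  have hxy : x * y = ∑ q ∈ (A ×ˢ B).image (fun q => q.1 + q.2), 2 ^ q := by
    rw [Finset.sum_image]
    · conv_lhs => rw [hx, hy]
      rw [Finset.sum_mul_sum, Finset.sum_product]
      refine Finset.sum_congr rfl (fun a _ => Finset.sum_congr rfl (fun b _ => ?_))
      rw [Nat.pow_add]
    · intro q hq q' hq' hqq
      simp only [Finset.coe_product, Set.mem_prod, Finset.mem_coe, memA, memB] at hq hq'
      have := h q.1 q.2 q'.1 q'.2 hq.1 hq.2 hq'.1 hq'.2 hqq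
      exact Prod.ext this.1 this.2
  rw [hxy, testBit_sum_two_pow]
  simp only [decide_eq_true_eq, Finset.mem_image, Finset.mem_product, memA, memB, Prod.exists]
  constructor
  · rintro ⟨a, b, ⟨ha, hb⟩, hab⟩
    exact ⟨a, b, hab, ha, hb⟩
  · rintro ⟨a, b, hab, ha, hb⟩
    exact ⟨a, b, ⟨ha, hb⟩, hab⟩

theorem testBit_rep {F : ℕ} (hF : 0 < F) (L p : ℕ) :
    (rep F L).testBit p = true ↔ ∃ k < L, p = F * k := by
  have h1 : rep F L = ∑ q ∈ (Finset.range L).image (fun k => F * k), 2 ^ q := by
    rw [Finset.sum_image]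
    · rfl
    · intro a _ b _ hab
      exact Nat.eq_of_mul_eq_mul_left hF hab
  rw [h1, testBit_sum_two_pow]
  simp only [decide_eq_true_eq, Finset.mem_image, Finset.mem_range]
  constructor
  · rintro ⟨a, ha, h⟩
    exact ⟨a, ha, h.symm⟩
  · rintro ⟨a, ha, h⟩
    exact ⟨a, ha, h.symm⟩

/-! ### Clearing the lowest set bit, with a guard bit `2 ^ m` -/

theorem clear_eq {x m : ℕ} (hx : x < 2 ^ m) (h0 : 0 < x) :
    x &&& ((x ||| 2 ^ m) - 1) = x &&& (x - 1) := by
  rw [Nat.or_two_pow_eq_add_of_lt hx]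
  have e : x + 2 ^ m - 1 = 2 ^ m * 1 + (x - 1) := by omega
  rw [e, Nat.two_pow_add_eq_or_of_lt (by omega : x - 1 < 2 ^ m)]
  apply Nat.eq_of_testBit_eq
  intro i
  rw [Nat.testBit_land, Nat.testBit_land, Nat.testBit_lor, Nat.mul_one, Nat.testBit_two_pow]
  by_cases hi : m = i
  · subst hi
    rw [Nat.testBit_lt_two_pow hx]
    simp
  · simp [hi]

/-- The lowest set bit is really cleared. -/
theorem xor_clear_ne_zero {x m : ℕ} (hx : x < 2 ^ m) (h0 : 0 < x) :
    x ^^^ (x &&& ((x ||| 2 ^ m) - 1)) ≠ 0 := by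
  rw [clear_eq hx h0]
  intro h
  have h1 : x = x &&& (x - 1) := Nat.xor_eq_zero_iff.1 h
  have h2 : x &&& (x - 1) ≤ x - 1 := Nat.and_le_right
  omega

theorem clear_lt {x m : ℕ} (hx : x < 2 ^ m) : x &&& ((x ||| 2 ^ m) - 1) < 2 ^ m :=
  lt_of_le_of_lt Nat.and_le_left hx

/-- If `x &&& (x - 1) = 0` and bit `i` of `x` is set, then `x = 2 ^ i`. -/
theorem eq_two_pow_of_clear_eq_zero {x i : ℕ} (hi : x.testBit i = true) (h : x &&& (x - 1) = 0) :
    x = 2 ^ i := by
  by_contra hne
  have hge : 2 ^ i ≤ x := Nat.ge_two_pow_of_testBit hi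
  -- the top bit of x
  have hx0 : x ≠ 0 := by
    intro h0; rw [h0] at hi; simp at hi
  obtain ⟨n, hn, hn'⟩ := Nat.exists_most_significant_bit hx0
  have hge' : 2 ^ n ≤ x := Nat.ge_two_pow_of_testBit hn
  have hlt : x < 2 ^ (n + 1) := Nat.lt_pow_two_of_testBit x (fun j hj => hn' j (by omega))
  have hxn : x ≠ 2 ^ n := by
    intro hxn
    rw [hxn, Nat.testBit_two_pow] at hi
    simp only [decide_eq_true_eq] at hi
    rw [hi] at hxn
    exact hne hxn
  have h1 : (x - 1).testBit n = true := by
    apply Nat.testBit_of_two_pow_le_and_two_pow_add_one_gt <;> omega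
  have h2 : (x &&& (x - 1)).testBit n = true := by
    rw [Nat.testBit_land, hn, h1]; rfl
  rw [h] at h2
  simp at h2

/-- With two different set bits something is left after clearing the lowest one. -/
theorem exists_testBit_clear {x m i j : ℕ} (hx : x < 2 ^ m) (hi : x.testBit i = true)
    (hj : x.testBit j = true) (hij : i ≠ j) :
    ∃ l < m, (x &&& ((x ||| 2 ^ m) - 1)).testBit l = true := by
  have h0 : 0 < x := by
    rcases Nat.eq_zero_or_pos x with h | h
    · rw [h] at hi; simp at hi
    · exact h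
  rw [clear_eq hx h0]
  have hne : x &&& (x - 1) ≠ 0 := by
    intro h
    have e1 := eq_two_pow_of_clear_eq_zero hi h
    have e2 := eq_two_pow_of_clear_eq_zero hj h
    exact hij (Nat.pow_right_injective le_rfl (e1.symm.trans e2))
  obtain ⟨l, hl⟩ := Nat.exists_testBit_of_ne_zero hne
  refine ⟨l, ?_, hl⟩
  by_contra hlm
  have h1 : 2 ^ l ≤ x &&& (x - 1) := Nat.ge_two_pow_of_testBit hl
  have h2 : x &&& (x - 1) ≤ x := Nat.and_le_left
  have h3 : 2 ^ m ≤ 2 ^ l := Nat.pow_le_pow_right (by norm_num) (by omega)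
  omega

/-- The bits left after clearing are bits of `x`. -/
theorem testBit_of_clear {x m l : ℕ} (h : (x &&& ((x ||| 2 ^ m) - 1)).testBit l = true) :
    x.testBit l = true := by
  rw [Nat.testBit_land] at h
  simp only [Bool.and_eq_true] at h
  exact h.1

/-- Nonzero test by a carry into the guard bit. -/
theorem testBit_carry {x m : ℕ} (hx : x < 2 ^ m) (h0 : 0 < x) :
    (x + (2 ^ m - 1)).testBit m = true := by
  have hm : 0 < 2 ^ m := by positivity
  have e : x + (2 ^ m - 1) = 2 ^ m + (x - 1) := by omega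
  rw [e, Nat.testBit_two_pow_add_eq, Nat.testBit_lt_two_pow (by omega)]
  rfl

theorem testBit_carry_zero (m : ℕ) : (0 + (2 ^ m - 1)).testBit m = false := by
  rw [Nat.zero_add]
  exact Nat.testBit_lt_two_pow (by have : 0 < 2 ^ m := by positivity
                                   omega)

end Pool.Agent.H57.Lane
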